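import Pool.Agent.Work.MP_fe875b_lc.Circ.Emb

/-!
MP_fe875b_lc, Circ/Wfa: the work function algorithm itself (every tie breaking, lazy or not), and the offline cost.
-/

set_option autoImplicit false
set_option linter.unusedVariables false

namespace Pool.Agent.KServer

open Finset

section General

variable {M : Type*} {k : ℕ}

/-- The optimal offline cost of serving `σ` from `c₀` and ending in the configuration `X` (the servers may end in any order). -/
noncomputable def offCost (D : M → M → ℝ) (c₀ : Fin k → M) (σ : List M) (X : Fin k → M) : ℝ :=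
  sInf {c : ℝ | ∃ S : ℕ → Fin k → M, Serves c₀ σ S ∧ (∃ π : Equiv.Perm (Fin k), S (σ.length + 1) = X ∘ π) ∧
    c = schedCost D S (σ.length + 1)}

/-- `C` is a work function algorithm: with `A` the current positions, it serves the new request `r` by moving to positions `X`
minimising `w(X) + ∑ j, D (A j) (X j)` over all `X` with a server at `r`, where `w` is the optimal offline cost of serving
all requests including `r` and ending in `X`. -/
def IsWFA (D : M → M → ℝ) (c₀ : Fin k → M) (C : List M → Fin k → M) : Prop :=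
  C [] = c₀ ∧ ∀ (l : List M) (r : M), (∃ i, C (l ++ [r]) i = r) ∧ ∀ Y : Fin k → M, (∃ i, Y i = r) →
    offCost D c₀ (l ++ [r]) (C (l ++ [r])) + ∑ j, D (C l j) (C (l ++ [r]) j) ≤
      offCost D c₀ (l ++ [r]) Y + ∑ j, D (C l j) (Y j)

theorem exists_sched (hk : 0 < k) {D : M → M → ℝ} (hD : Metr D) (c₀ : Fin k → M) (σ : List M) (X : Fin k → M) :
    ∃ S : ℕ → Fin k → M, Serves c₀ σ S ∧ (∃ π : Equiv.Perm (Fin k), S (σ.length + 1) = X ∘ π) ∧
      schedCost D S (σ.length + 1) = wf D c₀ σ X := by
  classical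
  induction σ using List.reverseRecOn generalizing X with
  | nil =>
    obtain ⟨π, hπ⟩ := exists_eq_ciInf_of_finite (f := fun π : Equiv.Perm (Fin k) => ∑ i : Fin k, D (c₀ i) (X (π i)))
    refine ⟨fun j => if j = 0 then c₀ else X ∘ π, ⟨by simp, fun j => j.elim0⟩, ⟨π, by simp⟩, ?_⟩
    rw [wf_nil]
    unfold wf0 schedCost
    rw [← hπ]
    simp
  | append_singleton σ r ih =>
    obtain ⟨i, hi⟩ := exists_upd hk D (wf D c₀ σ) r X
    obtain ⟨S, hS, ⟨π, hπ⟩, hcost⟩ := ih (Function.update X i r)
    set n := σ.length with hn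
    have hlen : (σ ++ [r]).length = n + 1 := by simp [hn]
    refine ⟨fun j => if j ≤ n + 1 then S j else X ∘ π, ⟨?_, fun j => ?_⟩, ⟨π, ?_⟩, ?_⟩
    · simp only [Nat.zero_le, if_true]
      exact hS.1
    · have hj : j.val < n + 1 := lt_of_lt_of_eq j.2 hlen
      simp only [if_pos (show j.val + 1 ≤ n + 1 by omega)]
      rcases Nat.lt_or_ge j.val n with h | h
      · obtain ⟨i', hi'⟩ := hS.2 ⟨j.val, h⟩
        refine ⟨i', hi'.trans ?_⟩
        rw [List.get_eq_getElem, List.get_eq_getElem]
        exact (List.getElem_append_left h).symm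
      · have hjn : j.val = n := by omega
        refine ⟨π.symm i, ?_⟩
        rw [List.get_eq_getElem]
        have e1 : S (j.val + 1) = (Function.update X i r) ∘ π := by rw [hjn]; exact hπ
        rw [e1]
        simp [hjn, hn]
    · rw [hlen]
      simp
    · rw [hlen]
      unfold schedCost
      rw [sum_range_succ]
      have e1 : ∑ j ∈ range (n + 1), ∑ i', D ((fun j => if j ≤ n + 1 then S j else X ∘ π) j i')
          ((fun j => if j ≤ n + 1 then S j else X ∘ π) (j + 1) i') = schedCost D S (n + 1) := by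
        unfold schedCost
        refine sum_congr rfl fun j hj => ?_
        have hj' := mem_range.1 hj
        simp only [if_pos (show j ≤ n + 1 by omega), if_pos (show j + 1 ≤ n + 1 by omega)]
      rw [e1, hcost]
      have e2 : (fun j => if j ≤ n + 1 then S j else X ∘ π) (n + 1) = (Function.update X i r) ∘ π := by
        simp only [le_refl, if_true]
        exact hπ
      have e3 : (fun j => if j ≤ n + 1 then S j else X ∘ π) (n + 1 + 1) = X ∘ π := by
        simp
      rw [e2, e3, wf_append, hi]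
      congr 1
      have e4 : ∑ j, D ((Function.update X i r ∘ π) j) ((X ∘ π) j) = ∑ j, D (Function.update X i r j) (X j) :=
        Equiv.sum_comp π (fun j => D (Function.update X i r j) (X j))
      rw [e4, Finset.sum_eq_single i]
      · rw [Function.update_self]
      · intro j _ hj
        rw [Function.update_of_ne hj, hD.self]
      · intro h
        exact absurd (Finset.mem_univ i) h

theorem offCost_eq (hk : 0 < k) {D : M → M → ℝ} (hD : Metr D) (c₀ : Fin k → M) (σ : List M) (X : Fin k → M) :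
    offCost D c₀ σ X = wf D c₀ σ X := by
  refine IsLeast.csInf_eq ⟨?_, ?_⟩
  · obtain ⟨S, h1, h2, h3⟩ := exists_sched hk hD c₀ σ X
    exact ⟨S, h1, h2, h3.symm⟩
  · rintro c ⟨S, h1, ⟨π, h2⟩, rfl⟩
    have hq := qwf_wf hk hD c₀ σ
    have h3 := wf_le_sched hk hD c₀ σ S h1
    have h4 := lip_sum hq (S σ.length) (S (σ.length + 1))
    rw [h2, hq.symm X π, ← h2] at h4
    unfold schedCost at h3 ⊢
    rw [sum_range_succ]
    linarith

/-- A work function algorithm exists. -/
theorem exists_isWFA (hk : 0 < k) {D : M → M → ℝ} (hD : Metr D) (c₀ : Fin k → M) :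
    ∃ C : List M → Fin k → M, IsWFA D c₀ C := by
  classical
  have hex : ∀ (l : List M) (r : M) (A : Fin k → M), ∃ i : Fin k,
      upd D (wfR D c₀ l) r A = wfR D c₀ l (Function.update A i r) + D r (A i) :=
    fun l r A => exists_upd hk D (wfR D c₀ l) r A
  choose f hf using hex
  let P : List M → Fin k → M := fun l => List.rec (motive := fun _ => Fin k → M) c₀
    (fun r l A => Function.update A (f l r A) r) l
  have hP : ∀ (r : M) (l : List M), P (r :: l) = Function.update (P l) (f l r (P l)) r := fun r l => rfl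
  refine ⟨fun l => P l.reverse, rfl, fun l r => ?_⟩
  have e : (l ++ [r]).reverse = r :: l.reverse := by simp
  simp only [e, hP, offCost_eq hk hD]
  set A := P l.reverse with hA
  set i := f l.reverse r A with hi
  refine ⟨⟨i, Function.update_self _ _ _⟩, fun Y hY => ?_⟩
  have h1 : upd D (wf D c₀ l) r A = wf D c₀ l (Function.update A i r) + D r (A i) := hf l.reverse r A
  have hq := qwf_wf hk hD c₀ l
  have hq' := qwf_wf hk hD c₀ (l ++ [r])
  have hsum : ∑ j : Fin k, D (A j) (Function.update A i r j) = D r (A i) := by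
    rw [Finset.sum_eq_single i]
    · rw [Function.update_self, hD.comm]
    · intro j _ hj
      rw [Function.update_of_ne hj, hD.self]
    · intro h
      exact absurd (Finset.mem_univ i) h
  have hmem : wf D c₀ (l ++ [r]) (Function.update A i r) = wf D c₀ l (Function.update A i r) := by
    rw [wf_append]
    exact upd_of_mem hk hD hq (i := i) (Function.update_self _ _ _)
  rw [hsum, hmem, ← h1, ← wf_append]
  have h2 := lip_sum hq' Y A
  have h3 : ∑ j, D (Y j) (A j) = ∑ j, D (A j) (Y j) := sum_congr rfl fun j _ => hD.comm _ _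
  rw [h3] at h2
  exact h2

theorem wfa_bound (hk : 0 < k) {D : M → M → ℝ} (hD : Metr D) {c₀ : Fin k → M} {C : List M → Fin k → M}
    (hC : IsWFA D c₀ C) (Φ : List M → ℝ) (σ : List M)
    (h : ∀ (τ : List M) (r : M), (τ ++ [r]) <+: σ → wf D c₀ (τ ++ [r]) (C τ) - wf D c₀ τ (C τ) ≤ Φ (τ ++ [r]) - Φ τ) :
    algCost D C σ + wf D c₀ σ (C σ) ≤ Φ σ - Φ [] := by
  classical
  induction σ using List.reverseRecOn with
  | nil =>
    rw [algCost_nil, wf_nil, hC.1, wf0_self hD c₀]
    simp
  | append_singleton σ r ih =>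
    have ih' := ih fun τ r' h' => h τ r' (h'.trans (List.prefix_append _ _))
    have h1 := h σ r (List.prefix_refl _)
    obtain ⟨i, hi⟩ := exists_upd hk D (wf D c₀ σ) r (C σ)
    have h2 := (hC.2 σ r).2 (Function.update (C σ) i r) ⟨i, Function.update_self _ _ _⟩
    rw [offCost_eq hk hD, offCost_eq hk hD] at h2
    have hsum : ∑ j : Fin k, D (C σ j) (Function.update (C σ) i r j) = D r (C σ i) := by
      rw [Finset.sum_eq_single i]
      · rw [Function.update_self, hD.comm]
      · intro j _ hj
        rw [Function.update_of_ne hj, hD.self]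
      · intro h
        exact absurd (Finset.mem_univ i) h
    have hmem : wf D c₀ (σ ++ [r]) (Function.update (C σ) i r) = wf D c₀ σ (Function.update (C σ) i r) := by
      rw [wf_append]
      exact upd_of_mem hk hD (qwf_wf hk hD c₀ σ) (i := i) (Function.update_self _ _ _)
    rw [hsum, hmem, ← hi, ← wf_append] at h2
    rw [algCost_append]
    linarith

theorem wf_map {V : Type*} {D : M → M → ℝ} {D' : V → V → ℝ} (φ : M → V) {F : Set M}
    (hφ : ∀ x ∈ F, ∀ y ∈ F, D' (φ x) (φ y) = D x y) {c₀ : Fin k → M} (hc : ∀ i, c₀ i ∈ F) (σ : List M)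
    (hσ : ∀ x ∈ σ, x ∈ F) (X : Fin k → M) (hX : ∀ i, X i ∈ F) :
    wf D' (fun i => φ (c₀ i)) (σ.map φ) (fun i => φ (X i)) = wf D c₀ σ X := by
  classical
  unfold wf
  rw [← List.map_reverse]
  have hσ' : ∀ x ∈ σ.reverse, x ∈ F := fun x hx => hσ x (List.mem_reverse.1 hx)
  generalize σ.reverse = l at hσ'
  induction l generalizing X with
  | nil =>
    show wf0 D' (fun i => φ (c₀ i)) (fun i => φ (X i)) = wf0 D c₀ X
    unfold wf0
    congr 1
    funext π
    exact sum_congr rfl fun i _ => hφ _ (hc i) _ (hX _)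
  | cons r l ih =>
    have hr : r ∈ F := hσ' r (by simp)
    change upd D' (wfR D' (fun i => φ (c₀ i)) (l.map φ)) (φ r)
      (fun i => φ (X i)) = upd D (wfR D c₀ l) r X
    unfold upd
    congr 1
    funext i
    have e : Function.update (fun j => φ (X j)) i (φ r) =
        fun j => φ (Function.update X i r j) := by
      funext j
      simp only [Function.update_apply]
      split_ifs <;> rfl
    rw [e, ih, hφ _ hr _ (hX i)]
    · intro j
      rw [Function.update_apply]
      split_ifs
      · exact hr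
      · exact hX j
    · exact fun x hx => hσ' x (by simp [hx])

end General

theorem Psi_mono {V : Type} [Finite V] [Nonempty V] (D : V → V → ℝ) (anti : V → V) (Δ : ℝ) {w₁ w₂ : (Fin 3 → V) → ℝ}
    {K : ℝ} (h : ∀ X, w₂ X ≤ w₁ X + K) : Psi D anti Δ w₂ ≤ Psi D anti Δ w₁ + 4 * K := by
  obtain ⟨q, x, y, t, h1⟩ := exists_Psi D anti Δ w₁
  have h2 := Psi_le D anti Δ w₂ q x y t
  rw [h1]
  unfold rows at h2 ⊢
  have a1 := h ![anti q, anti q, anti q]
  have a2 := h ![q, x, y]
  have a3 := h ![q, anti x, t]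
  have a4 := h ![q, anti y, anti t]
  linarith

theorem wf0_const_le {V : Type} {D : V → V → ℝ} (hD : Metr D) (c₀ : Fin 3 → V) (v : V) (X : Fin 3 → V) :
    wf0 D (fun _ => v) X ≤ wf0 D c₀ X + ∑ i, D (c₀ i) v := by
  obtain ⟨π, hπ⟩ := exists_eq_ciInf_of_finite (f := fun π : Equiv.Perm (Fin 3) => ∑ i : Fin 3, D (c₀ i) (X (π i)))
  have e : wf0 D c₀ X = ∑ i : Fin 3, D (c₀ i) (X (π i)) := hπ.symm
  rw [wf0_const, e, ← Equiv.sum_comp π (fun i => D v (X i)), ← sum_add_distrib]
  refine sum_le_sum fun i _ => ?_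
  have := hD.tri v (c₀ i) (X (π i))
  have := hD.comm v (c₀ i)
  linarith

/-- The work function algorithm is 3-competitive for three servers on every metric space all of whose finite subsets embed in circles. -/
theorem wfa_circ (M : Type*) [MetricSpace M]
    (hM : ∀ F : Finset M, ∃ L : ℝ, 0 < L ∧ ∃ f : M → AddCircle L, ∀ x ∈ F, ∀ y ∈ F, dist (f x) (f y) = dist x y)
    (c₀ : Fin 3 → M) (C : List M → Fin 3 → M) (hC : IsWFA dist c₀ C) (a : M) (σ : List M) (S : ℕ → Fin 3 → M)
    (hS : Serves c₀ σ S) :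
    algCost dist C σ ≤ 3 * schedCost dist S σ.length + 4 * ∑ i, dist (c₀ i) a := by
  classical
  have hMet : Metr (dist : M → M → ℝ) :=
    { self := fun x => dist_self _
      nonneg := fun x y => dist_nonneg
      tri := fun x y z => dist_triangle _ _ _
      comm := fun x y => dist_comm _ _ }
  let F : Finset M := insert a (univ.image c₀ ∪ σ.toFinset ∪ univ.image (S σ.length) ∪
    ((range (σ.length + 1)) ×ˢ (univ : Finset (Fin 3))).image (fun p => C (σ.take p.1) p.2))
  obtain ⟨L, hL, f, hf⟩ := hM F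
  let A : Finset (AddCircle L) := F.image f ∪ (F.image f).image (ap L)
  have hA : ∀ x ∈ A, ap L x ∈ A := by
    intro x hx
    rcases mem_union.1 hx with h | h
    · exact mem_union_right _ (mem_image_of_mem _ h)
    · obtain ⟨y, hy, rfl⟩ := mem_image.1 h
      rw [ap_ap]
      exact mem_union_left _ hy
  have hfA : ∀ x ∈ F, f x ∈ A := fun x hx => mem_union_left _ (mem_image_of_mem _ hx)
  let V : Type := {x : AddCircle L // x ∈ A}
  let anti : V → V := fun x => ⟨ap L x.1, hA x.1 x.2⟩
  have hfin : Finite V := inferInstanceAs (Finite {x : AddCircle L // x ∈ A})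
  have hcirc := onCirc_of_map hL (fun x : V => x.1) anti (fun x => Subtype.ext (ap_ap x.1)) (fun x => rfl)
  have haF0 : a ∈ F := mem_insert_self _ _
  let v : V := ⟨f a, hfA a haF0⟩
  have hne : Nonempty V := ⟨v⟩
  let φ : M → V := fun x => if hx : x ∈ F then ⟨f x, hfA x hx⟩ else v
  have hφ : ∀ x ∈ F, (φ x).1 = f x := by
    intro x hx
    show (if hx : x ∈ F then (⟨f x, hfA x hx⟩ : V) else v).1 = f x
    rw [dif_pos hx]
  set D' : V → V → ℝ := fun x y => dist x.1 y.1 with hD'
  have hD : Metr D' := hcirc.metr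
  have hdist : ∀ x ∈ (F : Set M), ∀ y ∈ (F : Set M), D' (φ x) (φ y) = dist x y := by
    intro x hx y hy
    show dist (φ x).1 (φ y).1 = dist x y
    rw [hφ x hx, hφ y hy]
    exact hf x hx y hy
  have hσF : ∀ x ∈ σ, x ∈ (F : Set M) := fun x hx =>
    mem_insert_of_mem (mem_union_left _ (mem_union_left _ (mem_union_right _ (List.mem_toFinset.2 hx))))
  have hcF : ∀ i, c₀ i ∈ (F : Set M) := fun i =>
    mem_insert_of_mem (mem_union_left _ (mem_union_left _ (mem_union_left _ (mem_image_of_mem _ (mem_univ i)))))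
  have hSF : ∀ i, S σ.length i ∈ (F : Set M) := fun i =>
    mem_insert_of_mem (mem_union_left _ (mem_union_right _ (mem_image_of_mem _ (mem_univ i))))
  have hCF : ∀ (τ : List M), τ <+: σ → ∀ i, C τ i ∈ (F : Set M) := by
    intro τ hτ i
    refine mem_insert_of_mem (mem_union_right _ (mem_image.2 ⟨(τ.length, i), ?_, ?_⟩))
    · exact mem_product.2 ⟨mem_range.2 (Nat.lt_succ_of_le hτ.length_le), mem_univ _⟩
    · show C (σ.take τ.length) i = C τ i
      rw [← List.prefix_iff_eq_take.1 hτ]
  have hwf : ∀ τ : List M, τ <+: σ → ∀ X : Fin 3 → M, (∀ i, X i ∈ (F : Set M)) →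
      wf D' (fun i => φ (c₀ i)) (τ.map φ) (fun i => φ (X i)) = wf dist c₀ τ X := fun τ hτ X hX =>
    wf_map φ hdist hcF τ (fun x hx => hσF x (hτ.subset hx)) X hX
  have hI : IneqI D' anti (L / 2) := ineqI_of_A hcirc.metr hcirc.hai hcirc.ha (ineqA_circ hcirc)
  have key := wfa_bound (k := 3) (by norm_num) hMet hC
    (fun τ => Psi D' anti (L / 2) (wf D' (fun i => φ (c₀ i)) (τ.map φ)) - 7 * (L / 2)) σ (by
      intro τ r hτ
      have hτ' : τ <+: σ := (List.prefix_append _ _).trans hτ
      rw [← hwf (τ ++ [r]) hτ _ (hCF τ hτ'), ← hwf τ hτ' _ (hCF τ hτ')]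
      have hw := qwf_wf (k := 3) (by norm_num) hD (fun i => φ (c₀ i)) (τ.map φ)
      have em : (τ ++ [r]).map φ = τ.map φ ++ [φ r] := by simp
      simp only [em]
      obtain ⟨q, x, y, t, h⟩ := exists_Psi D' anti (L / 2) (wf D' (fun i => φ (c₀ i)) (τ.map φ ++ [φ r]))
      have h1 := hI _ hw q x y t (φ r)
      rw [← wf_append] at h1
      have h4 := upd_sub_le hD hcirc.ha hw (φ r) 0 (fun i => φ (C τ i))
      rw [← wf_append] at h4
      have e1 : (fun _ : Fin 3 => anti (φ r)) = ![anti (φ r), anti (φ r), anti (φ r)] := by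
        funext j; fin_cases j <;> rfl
      have e2 : Function.update (fun _ : Fin 3 => anti (φ r)) 0 (φ r) = ![φ r, anti (φ r), anti (φ r)] := by
        funext j; fin_cases j <;> rfl
      rw [e2, e1] at h4
      rw [h]
      linarith)
  simp only [List.map_nil] at key
  have hw := qwf_wf (k := 3) (by norm_num) hD (fun i => φ (c₀ i)) (σ.map φ)
  have hstart : 7 * (L / 2) ≤ Psi D' anti (L / 2) (wf D' (fun i => φ (c₀ i)) []) + 4 * ∑ i, dist (c₀ i) a := by
    have h1 := Psi_wf0 hD hcirc.ha v
    have h2 : ∀ X, wf0 D' (fun _ => v) X ≤ wf0 D' (fun i => φ (c₀ i)) X + ∑ i, D' (φ (c₀ i)) v :=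
      fun X => wf0_const_le hD _ v X
    have h3 := Psi_mono D' anti (L / 2) h2
    have e : ∑ i, D' (φ (c₀ i)) v = ∑ i, dist (c₀ i) a := by
      refine sum_congr rfl fun i _ => ?_
      have hv : v = φ a := Subtype.ext (hφ a haF0).symm
      rw [hv]
      exact hdist _ (hcF i) _ haF0
    rw [e] at h3
    rw [wf_nil]
    linarith
  have hsub := wf_le_sched (k := 3) (by norm_num) hMet c₀ σ S hS
  have b1 := Psi_le_four hD hcirc.ha hcirc.hai hw (fun i => φ (C σ i))
  have b2 := Psi_le_four hD hcirc.ha hcirc.hai hw (fun i => φ (S σ.length i))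
  rw [hwf σ (List.prefix_refl _) _ (hCF σ (List.prefix_refl _))] at b1
  rw [hwf σ (List.prefix_refl _) _ hSF] at b2
  rcases le_total (wf dist c₀ σ (C σ)) (wf dist c₀ σ (S σ.length)) with h6 | h6
  · linarith
  · linarith

theorem online_of_isWFA {M : Type*} {k : ℕ} {D : M → M → ℝ} {c₀ : Fin k → M} {C : List M → Fin k → M}
    (hC : IsWFA D c₀ C) : Online c₀ C := ⟨hC.1, fun l r => (hC.2 l r).1⟩

end Pool.Agent.KServer
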