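import Pool.Agent.Work.MP_fe875b_lc.Circ.Lem

/-!
MP_fe875b_lc, Circ/Ord3: the cases of the class A inequality on a circle (generated). The point `p` is at the place `0`; the
points `s, a, b, r` or their antipodes are at the places `ts, ta, tb, tr` of the half circle; `e = true` if it is the point itself.
-/

set_option autoImplicit false
set_option linter.unusedVariables false
set_option linter.unusedSimpArgs false

namespace Pool.Agent.KServer

variable {V : Type} {D : V → V → ℝ} {anti : V → V} {Δ : ℝ} {u : V → V → ℝ}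

namespace Loc

theorem ord_bsar (h : Loc D anti Δ u) {p s a b r : V} {ts ta tb tr : ℝ} (es ea eb er : Bool)
    (h0 : 0 ≤ tb) (h1 : tb ≤ ts) (h2 : ts ≤ ta) (h3 : ta ≤ tr) (h4 : tr ≤ Δ)
    (ps : D p s = sd true es Δ ts)
    (pa : D p a = sd true ea Δ ta)
    (pb : D p b = sd true eb Δ tb)
    (pr : D p r = sd true er Δ tr)
    (sa : D s a = sd es ea Δ (ta - ts))
    (sb : D s b = sd es eb Δ (ts - tb))
    (sr : D s r = sd es er Δ (tr - ts))
    (ab : D a b = sd ea eb Δ (ta - tb))
    (ar : D a r = sd ea er Δ (tr - ta))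
    (br : D b r = sd eb er Δ (tr - tb)) :
    T3 D anti Δ u r (u p p + u (anti p) a + u (anti a) b + u (anti b) s + (2 * Δ - D s a - D s b - D a b) + D p r + D s r) := by
  cases es <;> cases ea <;> cases eb <;> cases er <;>
    simp only [sd] at ps pa pb pr sa sb sr ab ar br
  · exact h.c1 p s a b r (by linarith)
  · exact h.c1 p s a b r (by linarith)
  · exact h.c8 p s a b r (by linarith)
  · exact h.c2 p s a b r (by linarith)
  · exact h.c1 p s a b r (by linarith)
  · exact h.c1 p s a b r (by linarith)
  · exact h.c5 p s a b r (by linarith)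
  · exact h.c2 p s a b r (by linarith)
  · exact h.c3 p s a b r (by linarith)
  · exact h.c4 p s a b r (by linarith)
  · exact h.c3 p s a b r (by linarith)
  · exact h.c6 p s a b r (by linarith)
  · exact h.c1 p s a b r (by linarith)
  · exact h.c1 p s a b r (by linarith)
  · exact h.c1 p s a b r (by linarith)
  · exact h.c1 p s a b r (by linarith)

theorem ord_bsra (h : Loc D anti Δ u) {p s a b r : V} {ts ta tb tr : ℝ} (es ea eb er : Bool)
    (h0 : 0 ≤ tb) (h1 : tb ≤ ts) (h2 : ts ≤ tr) (h3 : tr ≤ ta) (h4 : ta ≤ Δ)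
    (ps : D p s = sd true es Δ ts)
    (pa : D p a = sd true ea Δ ta)
    (pb : D p b = sd true eb Δ tb)
    (pr : D p r = sd true er Δ tr)
    (sa : D s a = sd es ea Δ (ta - ts))
    (sb : D s b = sd es eb Δ (ts - tb))
    (sr : D s r = sd es er Δ (tr - ts))
    (ab : D a b = sd ea eb Δ (ta - tb))
    (ar : D a r = sd ea er Δ (ta - tr))
    (br : D b r = sd eb er Δ (tr - tb)) :
    T3 D anti Δ u r (u p p + u (anti p) a + u (anti a) b + u (anti b) s + (2 * Δ - D s a - D s b - D a b) + D p r + D s r) := by
  cases es <;> cases ea <;> cases eb <;> cases er <;>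
    simp only [sd] at ps pa pb pr sa sb sr ab ar br
  · exact h.c1 p s a b r (by linarith)
  · exact h.c1 p s a b r (by linarith)
  · exact h.c8 p s a b r (by linarith)
  · exact h.c2 p s a b r (by linarith)
  · exact h.c1 p s a b r (by linarith)
  · exact h.c1 p s a b r (by linarith)
  · exact h.c9 p s a b r (by linarith)
  · exact h.c2 p s a b r (by linarith)
  · exact h.c3 p s a b r (by linarith)
  · exact h.c4 p s a b r (by linarith)
  · exact h.c3 p s a b r (by linarith)
  · exact h.c6 p s a b r (by linarith)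
  · exact h.c1 p s a b r (by linarith)
  · exact h.c1 p s a b r (by linarith)
  · exact h.c1 p s a b r (by linarith)
  · exact h.c1 p s a b r (by linarith)

theorem ord_basr (h : Loc D anti Δ u) {p s a b r : V} {ts ta tb tr : ℝ} (es ea eb er : Bool)
    (h0 : 0 ≤ tb) (h1 : tb ≤ ta) (h2 : ta ≤ ts) (h3 : ts ≤ tr) (h4 : tr ≤ Δ)
    (ps : D p s = sd true es Δ ts)
    (pa : D p a = sd true ea Δ ta)
    (pb : D p b = sd true eb Δ tb)
    (pr : D p r = sd true er Δ tr)
    (sa : D s a = sd es ea Δ (ts - ta))
    (sb : D s b = sd es eb Δ (ts - tb))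
    (sr : D s r = sd es er Δ (tr - ts))
    (ab : D a b = sd ea eb Δ (ta - tb))
    (ar : D a r = sd ea er Δ (tr - ta))
    (br : D b r = sd eb er Δ (tr - tb)) :
    T3 D anti Δ u r (u p p + u (anti p) a + u (anti a) b + u (anti b) s + (2 * Δ - D s a - D s b - D a b) + D p r + D s r) := by
  cases es <;> cases ea <;> cases eb <;> cases er <;>
    simp only [sd] at ps pa pb pr sa sb sr ab ar br
  · exact h.c1 p s a b r (by linarith)
  · exact h.c1 p s a b r (by linarith)
  · exact h.c1 p s a b r (by linarith)
  · exact h.c1 p s a b r (by linarith)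
  · exact h.c1 p s a b r (by linarith)
  · exact h.c1 p s a b r (by linarith)
  · exact h.c5 p s a b r (by linarith)
  · exact h.c2 p s a b r (by linarith)
  · exact h.c3 p s a b r (by linarith)
  · exact h.c4 p s a b r (by linarith)
  · exact h.c3 p s a b r (by linarith)
  · exact h.c10 p s a b r (by linarith)
  · exact h.c1 p s a b r (by linarith)
  · exact h.c1 p s a b r (by linarith)
  · exact h.c3 p s a b r (by linarith)
  · exact h.c4 p s a b r (by linarith)

theorem ord_bars (h : Loc D anti Δ u) {p s a b r : V} {ts ta tb tr : ℝ} (es ea eb er : Bool)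
    (h0 : 0 ≤ tb) (h1 : tb ≤ ta) (h2 : ta ≤ tr) (h3 : tr ≤ ts) (h4 : ts ≤ Δ)
    (ps : D p s = sd true es Δ ts)
    (pa : D p a = sd true ea Δ ta)
    (pb : D p b = sd true eb Δ tb)
    (pr : D p r = sd true er Δ tr)
    (sa : D s a = sd es ea Δ (ts - ta))
    (sb : D s b = sd es eb Δ (ts - tb))
    (sr : D s r = sd es er Δ (ts - tr))
    (ab : D a b = sd ea eb Δ (ta - tb))
    (ar : D a r = sd ea er Δ (tr - ta))
    (br : D b r = sd eb er Δ (tr - tb)) :
    T3 D anti Δ u r (u p p + u (anti p) a + u (anti a) b + u (anti b) s + (2 * Δ - D s a - D s b - D a b) + D p r + D s r) := by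
  cases es <;> cases ea <;> cases eb <;> cases er <;>
    simp only [sd] at ps pa pb pr sa sb sr ab ar br
  · exact h.c1 p s a b r (by linarith)
  · exact h.c1 p s a b r (by linarith)
  · exact h.c1 p s a b r (by linarith)
  · exact h.c1 p s a b r (by linarith)
  · exact h.c1 p s a b r (by linarith)
  · exact h.c1 p s a b r (by linarith)
  · exact h.c5 p s a b r (by linarith)
  · exact h.c3 p s a b r (by linarith)
  · exact h.c2 p s a b r (by linarith)
  · exact h.c4 p s a b r (by linarith)
  · exact h.c2 p s a b r (by linarith)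
  · exact h.c10 p s a b r (by linarith)
  · exact h.c1 p s a b r (by linarith)
  · exact h.c1 p s a b r (by linarith)
  · exact h.c2 p s a b r (by linarith)
  · exact h.c7 p s a b r (by linarith)

theorem ord_brsa (h : Loc D anti Δ u) {p s a b r : V} {ts ta tb tr : ℝ} (es ea eb er : Bool)
    (h0 : 0 ≤ tb) (h1 : tb ≤ tr) (h2 : tr ≤ ts) (h3 : ts ≤ ta) (h4 : ta ≤ Δ)
    (ps : D p s = sd true es Δ ts)
    (pa : D p a = sd true ea Δ ta)
    (pb : D p b = sd true eb Δ tb)
    (pr : D p r = sd true er Δ tr)
    (sa : D s a = sd es ea Δ (ta - ts))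
    (sb : D s b = sd es eb Δ (ts - tb))
    (sr : D s r = sd es er Δ (ts - tr))
    (ab : D a b = sd ea eb Δ (ta - tb))
    (ar : D a r = sd ea er Δ (ta - tr))
    (br : D b r = sd eb er Δ (tr - tb)) :
    T3 D anti Δ u r (u p p + u (anti p) a + u (anti a) b + u (anti b) s + (2 * Δ - D s a - D s b - D a b) + D p r + D s r) := by
  cases es <;> cases ea <;> cases eb <;> cases er <;>
    simp only [sd] at ps pa pb pr sa sb sr ab ar br
  · exact h.c1 p s a b r (by linarith)
  · exact h.c1 p s a b r (by linarith)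
  · exact h.c4 p s a b r (by linarith)
  · exact h.c3 p s a b r (by linarith)
  · exact h.c1 p s a b r (by linarith)
  · exact h.c1 p s a b r (by linarith)
  · exact h.c9 p s a b r (by linarith)
  · exact h.c3 p s a b r (by linarith)
  · exact h.c2 p s a b r (by linarith)
  · exact h.c4 p s a b r (by linarith)
  · exact h.c2 p s a b r (by linarith)
  · exact h.c6 p s a b r (by linarith)
  · exact h.c1 p s a b r (by linarith)
  · exact h.c1 p s a b r (by linarith)
  · exact h.c1 p s a b r (by linarith)
  · exact h.c1 p s a b r (by linarith)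

theorem ord_bras (h : Loc D anti Δ u) {p s a b r : V} {ts ta tb tr : ℝ} (es ea eb er : Bool)
    (h0 : 0 ≤ tb) (h1 : tb ≤ tr) (h2 : tr ≤ ta) (h3 : ta ≤ ts) (h4 : ts ≤ Δ)
    (ps : D p s = sd true es Δ ts)
    (pa : D p a = sd true ea Δ ta)
    (pb : D p b = sd true eb Δ tb)
    (pr : D p r = sd true er Δ tr)
    (sa : D s a = sd es ea Δ (ts - ta))
    (sb : D s b = sd es eb Δ (ts - tb))
    (sr : D s r = sd es er Δ (ts - tr))
    (ab : D a b = sd ea eb Δ (ta - tb))
    (ar : D a r = sd ea er Δ (ta - tr))
    (br : D b r = sd eb er Δ (tr - tb)) :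
    T3 D anti Δ u r (u p p + u (anti p) a + u (anti a) b + u (anti b) s + (2 * Δ - D s a - D s b - D a b) + D p r + D s r) := by
  cases es <;> cases ea <;> cases eb <;> cases er <;>
    simp only [sd] at ps pa pb pr sa sb sr ab ar br
  · exact h.c1 p s a b r (by linarith)
  · exact h.c1 p s a b r (by linarith)
  · exact h.c1 p s a b r (by linarith)
  · exact h.c1 p s a b r (by linarith)
  · exact h.c1 p s a b r (by linarith)
  · exact h.c1 p s a b r (by linarith)
  · exact h.c5 p s a b r (by linarith)
  · exact h.c3 p s a b r (by linarith)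
  · exact h.c2 p s a b r (by linarith)
  · exact h.c4 p s a b r (by linarith)
  · exact h.c2 p s a b r (by linarith)
  · exact h.c6 p s a b r (by linarith)
  · exact h.c1 p s a b r (by linarith)
  · exact h.c1 p s a b r (by linarith)
  · exact h.c2 p s a b r (by linarith)
  · exact h.c7 p s a b r (by linarith)

end Loc

end Pool.Agent.KServer
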