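import Pool.Agent.Work.MP_fe875b_lc.Circ.Ord1
import Pool.Agent.Work.MP_fe875b_lc.Circ.Ord2
import Pool.Agent.Work.MP_fe875b_lc.Circ.Ord3
import Pool.Agent.Work.MP_fe875b_lc.Circ.Ord4

/-!
MP_fe875b_lc, Circ/Core: the class A inequality for a subset of a circle.
-/

set_option autoImplicit false
set_option linter.unusedVariables false

namespace Pool.Agent.KServer

variable {V : Type} {D : V → V → ℝ} {anti : V → V} {Δ : ℝ} {u : V → V → ℝ}

private theorem aux1 {x y : ℝ} (h : x ≤ y) : |x - y| = y - x := by
  rw [abs_sub_comm, abs_of_nonneg (by linarith)]

private theorem aux2 {x y : ℝ} (h : y ≤ x) : |x - y| = x - y := abs_of_nonneg (by linarith)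

theorem core_circ (h : Loc D anti Δ u) (hc : OnCirc D anti Δ) (p s a b r : V) :
    T3 D anti Δ u r (u p p + u (anti p) a + u (anti a) b + u (anti b) s
      + (2 * Δ - D s a - D s b - D a b) + D p r + D s r) := by
  obtain ⟨t, e, ht, hp, hd⟩ := hc.place p
  rcases le_total (t a) (t s) with ha0 | ha0
  · rcases le_total (t b) (t a) with hb0 | hb0
    · rcases le_total (t r) (t b) with hr0 | hr0
      · exact h.ord_rbas (e s) (e a) (e b) (e r) (ht r).1 (by assumption) (by assumption) (by assumption) (ht s).2
          (hp s) (hp a) (hp b) (hp r)
          (by rw [hd, aux2 (by linarith)])
          (by rw [hd, aux2 (by linarith)])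
          (by rw [hd, aux2 (by linarith)])
          (by rw [hd, aux2 (by linarith)])
          (by rw [hd, aux2 (by linarith)])
          (by rw [hd, aux2 (by linarith)])
      · rcases le_total (t r) (t a) with hr1 | hr1
        · exact h.ord_bras (e s) (e a) (e b) (e r) (ht b).1 (by assumption) (by assumption) (by assumption) (ht s).2
            (hp s) (hp a) (hp b) (hp r)
            (by rw [hd, aux2 (by linarith)])
            (by rw [hd, aux2 (by linarith)])
            (by rw [hd, aux2 (by linarith)])
            (by rw [hd, aux2 (by linarith)])
            (by rw [hd, aux2 (by linarith)])
            (by rw [hd, aux1 (by linarith)])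
        · rcases le_total (t r) (t s) with hr2 | hr2
          · exact h.ord_bars (e s) (e a) (e b) (e r) (ht b).1 (by assumption) (by assumption) (by assumption) (ht s).2
              (hp s) (hp a) (hp b) (hp r)
              (by rw [hd, aux2 (by linarith)])
              (by rw [hd, aux2 (by linarith)])
              (by rw [hd, aux2 (by linarith)])
              (by rw [hd, aux2 (by linarith)])
              (by rw [hd, aux1 (by linarith)])
              (by rw [hd, aux1 (by linarith)])
          · exact h.ord_basr (e s) (e a) (e b) (e r) (ht b).1 (by assumption) (by assumption) (by assumption) (ht r).2
              (hp s) (hp a) (hp b) (hp r)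
              (by rw [hd, aux2 (by linarith)])
              (by rw [hd, aux2 (by linarith)])
              (by rw [hd, aux1 (by linarith)])
              (by rw [hd, aux2 (by linarith)])
              (by rw [hd, aux1 (by linarith)])
              (by rw [hd, aux1 (by linarith)])
    · rcases le_total (t b) (t s) with hb1 | hb1
      · rcases le_total (t r) (t a) with hr0 | hr0
        · exact h.ord_rabs (e s) (e a) (e b) (e r) (ht r).1 (by assumption) (by assumption) (by assumption) (ht s).2
            (hp s) (hp a) (hp b) (hp r)
            (by rw [hd, aux2 (by linarith)])
            (by rw [hd, aux2 (by linarith)])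
            (by rw [hd, aux2 (by linarith)])
            (by rw [hd, aux1 (by linarith)])
            (by rw [hd, aux2 (by linarith)])
            (by rw [hd, aux2 (by linarith)])
        · rcases le_total (t r) (t b) with hr1 | hr1
          · exact h.ord_arbs (e s) (e a) (e b) (e r) (ht a).1 (by assumption) (by assumption) (by assumption) (ht s).2
              (hp s) (hp a) (hp b) (hp r)
              (by rw [hd, aux2 (by linarith)])
              (by rw [hd, aux2 (by linarith)])
              (by rw [hd, aux2 (by linarith)])
              (by rw [hd, aux1 (by linarith)])
              (by rw [hd, aux1 (by linarith)])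
              (by rw [hd, aux2 (by linarith)])
          · rcases le_total (t r) (t s) with hr2 | hr2
            · exact h.ord_abrs (e s) (e a) (e b) (e r) (ht a).1 (by assumption) (by assumption) (by assumption) (ht s).2
                (hp s) (hp a) (hp b) (hp r)
                (by rw [hd, aux2 (by linarith)])
                (by rw [hd, aux2 (by linarith)])
                (by rw [hd, aux2 (by linarith)])
                (by rw [hd, aux1 (by linarith)])
                (by rw [hd, aux1 (by linarith)])
                (by rw [hd, aux1 (by linarith)])
            · exact h.ord_absr (e s) (e a) (e b) (e r) (ht a).1 (by assumption) (by assumption) (by assumption) (ht r).2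
                (hp s) (hp a) (hp b) (hp r)
                (by rw [hd, aux2 (by linarith)])
                (by rw [hd, aux2 (by linarith)])
                (by rw [hd, aux1 (by linarith)])
                (by rw [hd, aux1 (by linarith)])
                (by rw [hd, aux1 (by linarith)])
                (by rw [hd, aux1 (by linarith)])
      · rcases le_total (t r) (t a) with hr0 | hr0
        · exact h.ord_rasb (e s) (e a) (e b) (e r) (ht r).1 (by assumption) (by assumption) (by assumption) (ht b).2
            (hp s) (hp a) (hp b) (hp r)
            (by rw [hd, aux2 (by linarith)])
            (by rw [hd, aux1 (by linarith)])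
            (by rw [hd, aux2 (by linarith)])
            (by rw [hd, aux1 (by linarith)])
            (by rw [hd, aux2 (by linarith)])
            (by rw [hd, aux2 (by linarith)])
        · rcases le_total (t r) (t s) with hr1 | hr1
          · exact h.ord_arsb (e s) (e a) (e b) (e r) (ht a).1 (by assumption) (by assumption) (by assumption) (ht b).2
              (hp s) (hp a) (hp b) (hp r)
              (by rw [hd, aux2 (by linarith)])
              (by rw [hd, aux1 (by linarith)])
              (by rw [hd, aux2 (by linarith)])
              (by rw [hd, aux1 (by linarith)])
              (by rw [hd, aux1 (by linarith)])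
              (by rw [hd, aux2 (by linarith)])
          · rcases le_total (t r) (t b) with hr2 | hr2
            · exact h.ord_asrb (e s) (e a) (e b) (e r) (ht a).1 (by assumption) (by assumption) (by assumption) (ht b).2
                (hp s) (hp a) (hp b) (hp r)
                (by rw [hd, aux2 (by linarith)])
                (by rw [hd, aux1 (by linarith)])
                (by rw [hd, aux1 (by linarith)])
                (by rw [hd, aux1 (by linarith)])
                (by rw [hd, aux1 (by linarith)])
                (by rw [hd, aux2 (by linarith)])
            · exact h.ord_asbr (e s) (e a) (e b) (e r) (ht a).1 (by assumption) (by assumption) (by assumption) (ht r).2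
                (hp s) (hp a) (hp b) (hp r)
                (by rw [hd, aux2 (by linarith)])
                (by rw [hd, aux1 (by linarith)])
                (by rw [hd, aux1 (by linarith)])
                (by rw [hd, aux1 (by linarith)])
                (by rw [hd, aux1 (by linarith)])
                (by rw [hd, aux1 (by linarith)])
  · rcases le_total (t b) (t s) with hb0 | hb0
    · rcases le_total (t r) (t b) with hr0 | hr0
      · exact h.ord_rbsa (e s) (e a) (e b) (e r) (ht r).1 (by assumption) (by assumption) (by assumption) (ht a).2
          (hp s) (hp a) (hp b) (hp r)
          (by rw [hd, aux1 (by linarith)])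
          (by rw [hd, aux2 (by linarith)])
          (by rw [hd, aux2 (by linarith)])
          (by rw [hd, aux2 (by linarith)])
          (by rw [hd, aux2 (by linarith)])
          (by rw [hd, aux2 (by linarith)])
      · rcases le_total (t r) (t s) with hr1 | hr1
        · exact h.ord_brsa (e s) (e a) (e b) (e r) (ht b).1 (by assumption) (by assumption) (by assumption) (ht a).2
            (hp s) (hp a) (hp b) (hp r)
            (by rw [hd, aux1 (by linarith)])
            (by rw [hd, aux2 (by linarith)])
            (by rw [hd, aux2 (by linarith)])
            (by rw [hd, aux2 (by linarith)])
            (by rw [hd, aux2 (by linarith)])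
            (by rw [hd, aux1 (by linarith)])
        · rcases le_total (t r) (t a) with hr2 | hr2
          · exact h.ord_bsra (e s) (e a) (e b) (e r) (ht b).1 (by assumption) (by assumption) (by assumption) (ht a).2
              (hp s) (hp a) (hp b) (hp r)
              (by rw [hd, aux1 (by linarith)])
              (by rw [hd, aux2 (by linarith)])
              (by rw [hd, aux1 (by linarith)])
              (by rw [hd, aux2 (by linarith)])
              (by rw [hd, aux2 (by linarith)])
              (by rw [hd, aux1 (by linarith)])
          · exact h.ord_bsar (e s) (e a) (e b) (e r) (ht b).1 (by assumption) (by assumption) (by assumption) (ht r).2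
              (hp s) (hp a) (hp b) (hp r)
              (by rw [hd, aux1 (by linarith)])
              (by rw [hd, aux2 (by linarith)])
              (by rw [hd, aux1 (by linarith)])
              (by rw [hd, aux2 (by linarith)])
              (by rw [hd, aux1 (by linarith)])
              (by rw [hd, aux1 (by linarith)])
    · rcases le_total (t b) (t a) with hb1 | hb1
      · rcases le_total (t r) (t s) with hr0 | hr0
        · exact h.ord_rsba (e s) (e a) (e b) (e r) (ht r).1 (by assumption) (by assumption) (by assumption) (ht a).2
            (hp s) (hp a) (hp b) (hp r)
            (by rw [hd, aux1 (by linarith)])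
            (by rw [hd, aux1 (by linarith)])
            (by rw [hd, aux2 (by linarith)])
            (by rw [hd, aux2 (by linarith)])
            (by rw [hd, aux2 (by linarith)])
            (by rw [hd, aux2 (by linarith)])
        · rcases le_total (t r) (t b) with hr1 | hr1
          · exact h.ord_srba (e s) (e a) (e b) (e r) (ht s).1 (by assumption) (by assumption) (by assumption) (ht a).2
              (hp s) (hp a) (hp b) (hp r)
              (by rw [hd, aux1 (by linarith)])
              (by rw [hd, aux1 (by linarith)])
              (by rw [hd, aux1 (by linarith)])
              (by rw [hd, aux2 (by linarith)])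
              (by rw [hd, aux2 (by linarith)])
              (by rw [hd, aux2 (by linarith)])
          · rcases le_total (t r) (t a) with hr2 | hr2
            · exact h.ord_sbra (e s) (e a) (e b) (e r) (ht s).1 (by assumption) (by assumption) (by assumption) (ht a).2
                (hp s) (hp a) (hp b) (hp r)
                (by rw [hd, aux1 (by linarith)])
                (by rw [hd, aux1 (by linarith)])
                (by rw [hd, aux1 (by linarith)])
                (by rw [hd, aux2 (by linarith)])
                (by rw [hd, aux2 (by linarith)])
                (by rw [hd, aux1 (by linarith)])
            · exact h.ord_sbar (e s) (e a) (e b) (e r) (ht s).1 (by assumption) (by assumption) (by assumption) (ht r).2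
                (hp s) (hp a) (hp b) (hp r)
                (by rw [hd, aux1 (by linarith)])
                (by rw [hd, aux1 (by linarith)])
                (by rw [hd, aux1 (by linarith)])
                (by rw [hd, aux2 (by linarith)])
                (by rw [hd, aux1 (by linarith)])
                (by rw [hd, aux1 (by linarith)])
      · rcases le_total (t r) (t s) with hr0 | hr0
        · exact h.ord_rsab (e s) (e a) (e b) (e r) (ht r).1 (by assumption) (by assumption) (by assumption) (ht b).2
            (hp s) (hp a) (hp b) (hp r)
            (by rw [hd, aux1 (by linarith)])
            (by rw [hd, aux1 (by linarith)])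
            (by rw [hd, aux2 (by linarith)])
            (by rw [hd, aux1 (by linarith)])
            (by rw [hd, aux2 (by linarith)])
            (by rw [hd, aux2 (by linarith)])
        · rcases le_total (t r) (t a) with hr1 | hr1
          · exact h.ord_srab (e s) (e a) (e b) (e r) (ht s).1 (by assumption) (by assumption) (by assumption) (ht b).2
              (hp s) (hp a) (hp b) (hp r)
              (by rw [hd, aux1 (by linarith)])
              (by rw [hd, aux1 (by linarith)])
              (by rw [hd, aux1 (by linarith)])
              (by rw [hd, aux1 (by linarith)])
              (by rw [hd, aux2 (by linarith)])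
              (by rw [hd, aux2 (by linarith)])
          · rcases le_total (t r) (t b) with hr2 | hr2
            · exact h.ord_sarb (e s) (e a) (e b) (e r) (ht s).1 (by assumption) (by assumption) (by assumption) (ht b).2
                (hp s) (hp a) (hp b) (hp r)
                (by rw [hd, aux1 (by linarith)])
                (by rw [hd, aux1 (by linarith)])
                (by rw [hd, aux1 (by linarith)])
                (by rw [hd, aux1 (by linarith)])
                (by rw [hd, aux1 (by linarith)])
                (by rw [hd, aux2 (by linarith)])
            · exact h.ord_sabr (e s) (e a) (e b) (e r) (ht s).1 (by assumption) (by assumption) (by assumption) (ht r).2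
                (hp s) (hp a) (hp b) (hp r)
                (by rw [hd, aux1 (by linarith)])
                (by rw [hd, aux1 (by linarith)])
                (by rw [hd, aux1 (by linarith)])
                (by rw [hd, aux1 (by linarith)])
                (by rw [hd, aux1 (by linarith)])
                (by rw [hd, aux1 (by linarith)])

end Pool.Agent.KServer
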