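import Pool.Agent.Work.MP_fe875b_lc.W.Br3

/-!
MP_fe875b_lc, Circ/Defs: the class A inequality on a circle.
-/

set_option autoImplicit false
set_option linter.unusedSectionVars false

namespace Pool.Agent.KServer

variable {V : Type}

/-- distance of two points of a circle of length `2Δ`, represented by places `t` on a half circle and a sign
(`true`: the point itself is on the half circle, `false`: its antipode); `x` is the distance of the places -/
def sd : Bool → Bool → ℝ → ℝ → ℝ
  | true, true, _, x => x
  | false, false, _, x => x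
  | true, false, Δ, x => Δ - x
  | false, true, Δ, x => Δ - x

/-- The space is a subset of a circle of length `2Δ` (with `anti` the antipode). -/
structure OnCirc (D : V → V → ℝ) (anti : V → V) (Δ : ℝ) : Prop where
  metr : Metr D
  ha : ∀ x y, D x (anti y) = Δ - D x y
  hai : ∀ x, anti (anti x) = x
  place : ∀ p : V, ∃ (t : V → ℝ) (e : V → Bool), (∀ x, 0 ≤ t x ∧ t x ≤ Δ) ∧ (∀ x, D p x = sd true (e x) Δ (t x)) ∧
    ∀ x y, D x y = sd (e x) (e y) Δ |t x - t y|

/-- `R` is at least the value of an array `X, Y, Z`. -/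
def T3 (D : V → V → ℝ) (anti : V → V) (Δ : ℝ) (u : V → V → ℝ) (r : V) (R : ℝ) : Prop :=
  ∃ X Y Z : V, u X (anti Y) + u Y (anti Z) + u Z (anti X) + (2 * Δ - D X Y - D Y Z - D Z X) + u r r ≤ R

namespace Loc

variable {D : V → V → ℝ} {anti : V → V} {Δ : ℝ} {u : V → V → ℝ}

theorem ha1 (h : Loc D anti Δ u) (x y : V) : D (anti x) y = Δ - D x y := by
  rw [h.metr.comm, h.ha, h.metr.comm]

/-- exchange -/
theorem ex (h : Loc D anti Δ u) (x y z : V) : u x y + u x z ≤ u x x + u y z := by
  have h1 := h.fp x x y z
  have h2 : u x z + u x y = u x y + u x z := add_comm _ _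
  rw [h2, min_self] at h1
  exact h1

/-- Lipschitz step -/
theorem lp (h : Loc D anti Δ u) (x y z : V) : u x z ≤ u x y + D y z := by
  have h1 := h.lip z y x
  rw [h.symm z x, h.symm y x, h.metr.comm z y] at h1
  exact h1

/-- four point split -/
theorem sp (h : Loc D anti Δ u) (a b c d : V) :
    u a c + u b d ≤ u a b + u c d ∨ u a d + u b c ≤ u a b + u c d := min_le_iff.1 (h.fp a b c d)

end Loc

end Pool.Agent.KServer
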