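import Pool.Agent.Work.MP_fe875b_lc.Circ.Fin

/-!
MP_fe875b_lc, Circ/Emb: subsets of the circle `AddCircle L`.
-/

set_option autoImplicit false
set_option linter.unusedVariables false

namespace Pool.Agent.KServer

open Finset

section Norm

variable {L : ℝ}

theorem norm_small (hL : 0 < L) {x : ℝ} (hx : |x| ≤ L / 2) : ‖(x : AddCircle L)‖ = |x| := by
  rw [AddCircle.norm_coe_eq_abs_iff L hL.ne', abs_of_pos hL]
  exact hx

theorem norm_large (hL : 0 < L) {x : ℝ} (hx : L / 2 ≤ |x|) (hx' : |x| ≤ L) : ‖(x : AddCircle L)‖ = L - |x| := by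
  rcases le_total 0 x with h | h
  · rw [abs_of_nonneg h] at hx hx' ⊢
    have e : ((x - L : ℝ) : AddCircle L) = (x : AddCircle L) := by
      rw [AddCircle.coe_sub, AddCircle.coe_period, sub_zero]
    rw [← e, norm_small hL, abs_of_nonpos (by linarith)]
    · ring
    · rw [abs_of_nonpos (by linarith)]; linarith
  · rw [abs_of_nonpos h] at hx hx' ⊢
    have e : ((x + L : ℝ) : AddCircle L) = (x : AddCircle L) := by
      rw [AddCircle.coe_add, AddCircle.coe_period, add_zero]
    rw [← e, norm_small hL, abs_of_nonneg (by linarith)]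
    · ring
    · rw [abs_of_nonneg (by linarith)]; linarith

/-- the antipode -/
noncomputable def ap (L : ℝ) (x : AddCircle L) : AddCircle L := x + ((L / 2 : ℝ) : AddCircle L)

theorem ap_ap (x : AddCircle L) : ap L (ap L x) = x := by
  unfold ap
  rw [add_assoc, ← AddCircle.coe_add]
  have : L / 2 + L / 2 = L := by ring
  rw [this, AddCircle.coe_period, add_zero]

/-- coordinate in `[0, L)` -/
theorem exists_coord (hL : 0 < L) (x : AddCircle L) : ∃ c : ℝ, 0 ≤ c ∧ c < L ∧ (c : AddCircle L) = x := by
  haveI : Fact (0 < L) := ⟨hL⟩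
  have h := (AddCircle.equivIco L 0 x).2
  refine ⟨(AddCircle.equivIco L 0 x : ℝ), h.1, by have := h.2; linarith, AddCircle.coe_equivIco⟩

theorem dist_ap (hL : 0 < L) (x y : AddCircle L) : dist x (ap L y) = L / 2 - dist x y := by
  obtain ⟨c, h0, h1, hc⟩ := exists_coord hL (x - y)
  have e1 : dist x y = ‖(c : AddCircle L)‖ := by rw [dist_eq_norm, hc]
  have e2 : dist x (ap L y) = ‖((c - L / 2 : ℝ) : AddCircle L)‖ := by
    rw [dist_eq_norm, AddCircle.coe_sub, hc]
    unfold ap
    congr 1
    abel
  rw [e1, e2]
  rcases le_total c (L / 2) with h | h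
  · rw [norm_small hL (x := c) (by rw [abs_of_nonneg h0]; exact h), norm_small hL, abs_of_nonneg h0,
      abs_of_nonpos (by linarith)]
    · ring
    · rw [abs_of_nonpos (by linarith)]; linarith
  · rw [norm_large hL (x := c) (by rw [abs_of_nonneg h0]; exact h) (by rw [abs_of_nonneg h0]; exact h1.le),
      norm_small hL, abs_of_nonneg h0, abs_of_nonneg (by linarith)]
    · ring
    · rw [abs_of_nonneg (by linarith)]; linarith

end Norm

/-- A subset of the circle closed under antipodes is `OnCirc`. -/
theorem onCirc_of_map {V : Type} {L : ℝ} (hL : 0 < L) (f : V → AddCircle L) (anti : V → V)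
    (h1 : ∀ x, anti (anti x) = x) (h2 : ∀ x, f (anti x) = ap L (f x)) :
    OnCirc (fun x y => dist (f x) (f y)) anti (L / 2) where
  metr :=
    { self := fun x => dist_self _
      nonneg := fun x y => dist_nonneg
      tri := fun x y z => dist_triangle _ _ _
      comm := fun x y => dist_comm _ _ }
  ha x y := by
    show dist (f x) (f (anti y)) = L / 2 - dist (f x) (f y)
    rw [h2, dist_ap hL]
  hai := h1
  place p := by
    have h3 : ∀ x : V, ∃ c : ℝ, 0 ≤ c ∧ c < L ∧ (c : AddCircle L) = f x - f p := fun x => exists_coord hL _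
    choose c hc0 hcL hc using h3
    have hdist : ∀ x y, dist (f x) (f y) = ‖((c x - c y : ℝ) : AddCircle L)‖ := by
      intro x y
      rw [dist_eq_norm, AddCircle.coe_sub, hc, hc]
      congr 1
      abel
    have hdp : ∀ x, dist (f p) (f x) = ‖(c x : AddCircle L)‖ := by
      intro x
      rw [dist_comm, dist_eq_norm, hc]
    refine ⟨fun x => if c x < L / 2 then c x else c x - L / 2, fun x => decide (c x < L / 2), ?_, ?_, ?_⟩
    · intro x
      have a1 := hc0 x
      have a2 := hcL x
      by_cases h : c x < L / 2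
      · simp only [h, if_true]
        exact ⟨a1, h.le⟩
      · simp only [h, if_false]
        rw [not_lt] at h
        exact ⟨by linarith, by linarith⟩
    · intro x
      have a1 := hc0 x
      have a2 := hcL x
      show dist (f p) (f x) = _
      rw [hdp]
      by_cases h : c x < L / 2
      · simp only [h, if_true, decide_true, sd]
        rw [norm_small hL, abs_of_nonneg a1]
        rw [abs_of_nonneg a1]; exact h.le
      · simp only [h, if_false, decide_false, sd]
        rw [not_lt] at h
        rw [norm_large hL, abs_of_nonneg a1]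
        · ring
        · rw [abs_of_nonneg a1]; exact h
        · rw [abs_of_nonneg a1]; exact a2.le
    · intro x y
      have a1 := hc0 x
      have a2 := hcL x
      have b1 := hc0 y
      have b2 := hcL y
      show dist (f x) (f y) = _
      rw [hdist]
      by_cases hx : c x < L / 2 <;> by_cases hy : c y < L / 2
      · simp only [hx, hy, if_true, decide_true, sd]
        rw [norm_small hL]
        rw [abs_le]; constructor <;> linarith
      · simp only [hx, hy, if_true, if_false, decide_true, decide_false, sd]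
        rw [not_lt] at hy
        rcases le_total (c x) (c y - L / 2) with h | h
        · rw [norm_large hL, abs_of_nonpos (by linarith), abs_of_nonpos (by linarith)]
          · ring
          · rw [abs_of_nonpos (by linarith)]; linarith
          · rw [abs_of_nonpos (by linarith)]; linarith
        · rw [norm_small hL, abs_of_nonpos (by linarith), abs_of_nonneg (by linarith)]
          · ring
          · rw [abs_of_nonpos (by linarith)]; linarith
      · simp only [hx, hy, if_true, if_false, decide_true, decide_false, sd]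
        rw [not_lt] at hx
        rcases le_total (c y) (c x - L / 2) with h | h
        · rw [norm_large hL, abs_of_nonneg (by linarith), abs_of_nonneg (by linarith)]
          · ring
          · rw [abs_of_nonneg (by linarith)]; linarith
          · rw [abs_of_nonneg (by linarith)]; linarith
        · rw [norm_small hL, abs_of_nonneg (by linarith), abs_of_nonpos (by linarith)]
          · ring
          · rw [abs_of_nonneg (by linarith)]; linarith
      · simp only [hx, hy, if_false, decide_false, sd]
        rw [not_lt] at hx hy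
        have e : c x - L / 2 - (c y - L / 2) = c x - c y := by ring
        rw [e, norm_small hL]
        rw [abs_le]; constructor <;> linarith

/-- Spaces all of whose finite subsets embed in circles. -/
theorem strict_of_circ (M : Type*) [MetricSpace M]
    (hM : ∀ F : Finset M, ∃ L : ℝ, 0 < L ∧ ∃ f : M → AddCircle L, ∀ x ∈ F, ∀ y ∈ F, dist (f x) (f y) = dist x y)
    (a : M) : ∃ δ : List M → Fin 3, ∀ (σ : List M) (S : ℕ → Fin 3 → M), Serves (fun _ => a) σ S →
      algCost dist (lazyC δ (fun _ => a)) σ ≤ 3 * schedCost dist S σ.length := by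
  classical
  suffices key : ∀ (T : Finset {p : List M × (ℕ → Fin 3 → M) // Serves (fun _ => a) p.1 p.2}) (η : ℝ), 0 < η →
      ∃ δ : List M → Fin 3, ∀ t ∈ T, algCost dist (lazyC δ (fun _ => a)) t.1.1
        ≤ 3 * schedCost dist t.1.2 t.1.1.length + η by
    obtain ⟨δ, hδ⟩ := exists_limit (k := 3) (by norm_num) (dist : M → M → ℝ) (fun _ => a)
      (fun t : {p : List M × (ℕ → Fin 3 → M) // Serves (fun _ => a) p.1 p.2} => t.1.1)
      (fun t => 3 * schedCost dist t.1.2 t.1.1.length) key
    exact ⟨δ, fun σ S hS => hδ ⟨(σ, S), hS⟩⟩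
  intro T η hη
  let F : Finset M := insert a (T.biUnion fun t => t.1.1.toFinset ∪
    ((range (t.1.1.length + 1)) ×ˢ (univ : Finset (Fin 3))).image (fun p => t.1.2 p.1 p.2))
  obtain ⟨L, hL, f, hf⟩ := hM F
  let A : Finset (AddCircle L) := F.image f ∪ (F.image f).image (ap L)
  have hA : ∀ x ∈ A, ap L x ∈ A := by
    intro x hx
    rcases mem_union.1 hx with h | h
    · exact mem_union_right _ (mem_image_of_mem _ h)
    · obtain ⟨y, hy, rfl⟩ := mem_image.1 h
      rw [ap_ap]
      exact mem_union_left _ hy
  have hfA : ∀ x ∈ F, f x ∈ A := fun x hx => mem_union_left _ (mem_image_of_mem _ hx)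
  let V : Type := {x : AddCircle L // x ∈ A}
  let anti : V → V := fun x => ⟨ap L x.1, hA x.1 x.2⟩
  have hfin : Finite V := inferInstanceAs (Finite {x : AddCircle L // x ∈ A})
  have hcirc := onCirc_of_map hL (fun x : V => x.1) anti (fun x => Subtype.ext (ap_ap x.1)) (fun x => rfl)
  have haF0 : a ∈ F := mem_insert_self _ _
  let v : V := ⟨f a, hfA a haF0⟩
  let φ : M → V := fun x => if hx : x ∈ F then ⟨f x, hfA x hx⟩ else v
  have hφ : ∀ x ∈ F, (φ x).1 = f x := by
    intro x hx
    show (if hx : x ∈ F then (⟨f x, hfA x hx⟩ : V) else v).1 = f x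
    rw [dif_pos hx]
  have hφa : φ a = v := Subtype.ext (hφ a haF0)
  obtain ⟨C, hC, hcomp⟩ := comp_circ hcirc v
  obtain ⟨δ', hδ'⟩ := exists_lazy (by norm_num) hcirc.metr.toIsDist _ C hC
  have hdist : ∀ x ∈ (F : Set M), ∀ y ∈ (F : Set M), dist ((φ x).1) ((φ y).1) = dist x y := by
    intro x hx y hy
    rw [hφ x hx, hφ y hy]
    exact hf x hx y hy
  refine ⟨pull φ δ', fun t ht => ?_⟩
  have hσF : ∀ x ∈ t.1.1, x ∈ (F : Set M) := by
    intro x hx
    refine mem_insert_of_mem (mem_biUnion.2 ⟨t, ht, mem_union_left _ (List.mem_toFinset.2 hx)⟩)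
  have hSF : ∀ j ≤ t.1.1.length, ∀ i, t.1.2 j i ∈ (F : Set M) := by
    intro j hj i
    refine mem_insert_of_mem (mem_biUnion.2 ⟨t, ht, mem_union_right _ (mem_image.2 ⟨(j, i), ?_, rfl⟩)⟩)
    exact mem_product.2 ⟨mem_range.2 (by omega), mem_univ _⟩
  have haF : a ∈ (F : Set M) := haF0
  have h1 := algCost_pull (F := (F : Set M)) (D := dist) (D' := fun x y : V => dist x.1 y.1) φ 1
    (fun x hx y hy => by rw [one_mul]; exact (hdist x hx y hy).ge) δ' (c₀ := fun _ => a) (fun _ => haF) t.1.1 hσF
  have h2 := schedCost_map (F := (F : Set M)) (D := dist) (D' := fun x y : V => dist x.1 y.1) φ 1 0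
    (fun x hx y hy => by rw [one_mul, add_zero]; exact (hdist x hx y hy).le) t.1.2 t.1.1.length hSF
  have h3 : Serves (fun _ => v) (t.1.1.map φ) (fun j i => φ (t.1.2 j i)) := by
    have := serves_map φ t.2
    simpa only [hφa] using this
  have h4 := hcomp _ _ h3
  rw [List.length_map] at h4
  have h5 := hδ' (t.1.1.map φ)
  simp only [hφa] at h1
  linarith

theorem comp_of_circ (M : Type*) [MetricSpace M]
    (hM : ∀ F : Finset M, ∃ L : ℝ, 0 < L ∧ ∃ f : M → AddCircle L, ∀ x ∈ F, ∀ y ∈ F, dist (f x) (f y) = dist x y)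
    (c₀ : Fin 3 → M) (a : M) : Comp (fun x y => dist x y) c₀ 3 (4 * ∑ i, dist (c₀ i) a) := by
  obtain ⟨δ, hδ⟩ := strict_of_circ M hM a
  have h := comp_of_strict (isDist_dist M) (c := 3) (by norm_num) a _ (online_lazy δ _) hδ dist_comm c₀
  have e : ((3 : ℝ) + 1) = 4 := by norm_num
  rw [e] at h
  exact h

end Pool.Agent.KServer
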