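import Pool.Agent.Work.MP_fe875b_lc.Circ.Core

/-!
MP_fe875b_lc, Circ/Fin: on a subset of a circle of length `2Δ` the correction term is `2Δ` minus the perimeter,
inequality [I] holds, and three servers are strictly 3-competitive on finite antipodal subsets.
-/

set_option autoImplicit false
set_option linter.unusedVariables false

namespace Pool.Agent.KServer

variable {V : Type} {D : V → V → ℝ} {anti : V → V} {Δ : ℝ} {u : V → V → ℝ}

private theorem aux1 {x y : ℝ} (h : x ≤ y) : |x - y| = y - x := by
  rw [abs_sub_comm, abs_of_nonneg (by linarith)]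

private theorem aux2 {x y : ℝ} (h : y ≤ x) : |x - y| = x - y := abs_of_nonneg (by linarith)

/-- lower bound (every antipodal space) -/
theorem le_cT_gen [Finite V] (hD : Metr D) (ha : ∀ x y, D x (anti y) = Δ - D x y) (hai : ∀ x, anti (anti x) = x)
    (x y t : V) : 2 * Δ - D (anti x) y - D (anti x) (anti t) - D y (anti t) ≤ cT D anti x y t := by
  refine le_trans ?_ (pairMin_le_cT D anti x y t (anti y))
  have ha' : ∀ x y, D (anti x) y = Δ - D x y := fun x y => by rw [hD.comm, ha, hD.comm]
  have t1 := hD.tri y x t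
  have t2 := hD.tri (anti x) y (anti t)
  have t3 := hD.tri y (anti x) (anti t)
  have t4 := hD.tri y (anti t) (anti x)
  have c1 := hD.comm x y
  have c2 := hD.comm t y
  have c3 := hD.comm t x
  have s1 := hD.self y
  unfold pairMin
  refine le_min ?_ (le_min ?_ ?_)
  · simp only [ha, ha'] at *
    linarith
  · simp only [ha, ha'] at *
    linarith
  · simp only [ha, ha'] at *
    linarith

/-- one of the three closed walks through four points is at most the length of the circle -/
theorem four_cycle (hc : OnCirc D anti Δ) (z x y w : V) :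
    D z x + D x w + D y w + D z y ≤ 2 * Δ ∨ D z x + D x y + D y w + D z w ≤ 2 * Δ ∨
      D z y + D x y + D x w + D z w ≤ 2 * Δ := by
  obtain ⟨t, e, ht, hp, hd⟩ := hc.place z
  have hx := ht x
  have hy := ht y
  have hw := ht w
  have p1 := hp x
  have p2 := hp y
  have p3 := hp w
  have d1 := hd x y
  have d2 := hd x w
  have d3 := hd y w
  clear hp hd ht
  generalize e x = e1 at *
  generalize e y = e2 at *
  generalize e w = e3 at *
  rcases le_total (t x) (t y) with h1 | h1 <;> rcases le_total (t y) (t w) with h2 | h2 <;>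
    rcases le_total (t x) (t w) with h3 | h3 <;>
    simp only [aux1, aux2, h1, h2, h3] at d1 d2 d3 <;>
    cases e1 <;> cases e2 <;> cases e3 <;> simp only [sd] at p1 p2 p3 d1 d2 d3 <;>
    first
      | (left; linarith)
      | (right; left; linarith)
      | (right; right; linarith)

theorem cT_le_circ [Finite V] [Nonempty V] (hc : OnCirc D anti Δ) (x y t : V) :
    cT D anti x y t ≤ 2 * Δ - D (anti x) y - D (anti x) (anti t) - D y (anti t) := by
  refine cT_le fun z => ?_
  unfold pairMin
  rcases four_cycle hc z (anti x) y (anti t) with h | h | h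
  · refine (min_le_left _ _).trans ?_
    linarith
  · refine (min_le_right _ _).trans ((min_le_left _ _).trans ?_)
    linarith
  · refine (min_le_right _ _).trans ((min_le_right _ _).trans ?_)
    linarith

theorem tgt_of_T3 [Finite V] [Nonempty V] (h : Loc D anti Δ u) (hc : OnCirc D anti Δ) {r : V} {R : ℝ}
    (hT : T3 D anti Δ u (anti r) R) : Tgt D anti Δ u r (R + Δ) := by
  obtain ⟨X, Y, Z, hT⟩ := hT
  refine ⟨anti X, Z, anti Y, ?_⟩
  have h1 := cT_le_circ hc (anti X) Z (anti Y)
  have h2 := h.symm (anti X) Z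
  have h3 := h.symm (anti Z) Y
  have h4 := hc.metr.comm Z X
  have h5 := hc.metr.comm Z Y
  simp only [h.hai] at *
  linarith

theorem ineqA_circ [Finite V] (hc : OnCirc D anti Δ) : IneqA D anti Δ := by
  intro w hw q x y t r
  have : Nonempty V := ⟨q⟩
  have h := loc_of_qwf hc.metr hc.hai hc.ha hw r
  have h1 := tgt_of_T3 h hc (core_circ h hc (anti q) y (anti t) (anti x) (anti r))
  obtain ⟨a, b, e, h1⟩ := h1
  have h2 := Psi_le D anti Δ w r a b e
  unfold rows at h2
  have h3 := le_cT_gen hc.metr hc.ha hc.hai x y t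
  have h4 : w ![r, a, b] + w ![r, anti a, e] + w ![r, anti b, anti e] + cT D anti a b e + Δ
    + w ![r, anti r, anti r] ≤ _ := h1
  have e1 : w ![r, anti (anti q), anti t] = w ![r, q, anti t] := by rw [hc.hai]
  have e2 : w ![r, anti (anti t), anti x] = w ![r, anti x, t] := by rw [hc.hai]; exact h.symm _ _
  have e3 : w ![r, anti (anti x), y] = w ![r, x, y] := by rw [hc.hai]
  have ha' : ∀ x y, D (anti x) y = Δ - D x y := fun x y => by rw [hc.metr.comm, hc.ha, hc.metr.comm]
  have c1 := hc.metr.comm q r
  have c2 := hc.metr.comm y r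
  have c3 := hc.metr.comm t y
  have c4 := hc.metr.comm x y
  have c5 := hc.metr.comm x t
  simp only [hc.ha, ha', e1, e2, e3] at *
  linarith

theorem comp_of_ineqI [Finite V] (hD : Metr D) (hai : ∀ x, anti (anti x) = x)
    (ha : ∀ x y, D x (anti y) = Δ - D x y) (hI : IneqI D anti Δ) (v : V) :
    Comp D (fun _ : Fin 3 => v) 3 0 := by
  have : Nonempty V := ⟨v⟩
  have key : Comp D (fun _ : Fin 3 => v) 3 (0 - (fun σ : List V => Psi D anti Δ (wf D (fun _ => v) σ) - 7 * Δ) []) := by
    refine comp_of_potential (k := 3) (by norm_num) hD _ (by norm_num)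
      (fun σ => Psi D anti Δ (wf D (fun _ => v) σ) - 7 * Δ) ?_ ?_
    · intro σ r X
      have hw := qwf_wf (k := 3) (by norm_num) hD (fun _ => v) σ
      obtain ⟨q, x, y, t, h⟩ := exists_Psi D anti Δ (wf D (fun _ : Fin 3 => v) (σ ++ [r]))
      have h1 := hI _ hw q x y t r
      rw [← wf_append] at h1
      have h4 := upd_sub_le hD ha hw r 0 X
      rw [← wf_append] at h4
      have e1 : (fun _ : Fin 3 => anti r) = ![anti r, anti r, anti r] := by
        funext j; fin_cases j <;> rfl
      have e2 : Function.update (fun _ : Fin 3 => anti r) 0 r = ![r, anti r, anti r] := by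
        funext j; fin_cases j <;> rfl
      rw [e1] at h4
      rw [← e1, e2, e1] at h4
      show _ ≤ (Psi D anti Δ (wf D (fun _ => v) (σ ++ [r])) - 7 * Δ) - (Psi D anti Δ (wf D (fun _ => v) σ) - 7 * Δ)
      rw [h]
      linarith
    · intro σ X
      have hw := qwf_wf (k := 3) (by norm_num) hD (fun _ => v) σ
      have := Psi_le_four hD ha hai hw X
      show Psi D anti Δ (wf D (fun _ => v) σ) - 7 * Δ ≤ _
      linarith
  obtain ⟨C, hC, hb⟩ := key
  refine ⟨C, hC, fun σ S hS => ?_⟩
  have h3 := hb σ S hS
  have h4 : 0 ≤ (fun σ : List V => Psi D anti Δ (wf D (fun _ => v) σ) - 7 * Δ) [] := by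
    show 0 ≤ Psi D anti Δ (wf D (fun _ : Fin 3 => v) []) - 7 * Δ
    rw [wf_nil]
    have := Psi_wf0 hD ha v (D := D)
    linarith
  linarith

theorem comp_circ [Finite V] (hc : OnCirc D anti Δ) (v : V) : Comp D (fun _ : Fin 3 => v) 3 0 :=
  comp_of_ineqI hc.metr hc.hai hc.ha (ineqI_of_A hc.metr hc.hai hc.ha (ineqA_circ hc)) v

end Pool.Agent.KServer
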