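import Pool.Agent.Work.MP_fe875b_lc.Circ.Defs

/-!
MP_fe875b_lc, Circ/Lem: the twelve reductions used on a circle. `X' = anti X`; with
`c(x, y, z) = 2Δ - d(x, y) - d(y, z) - d(z, x)` the target is an array `X Y Z` with
`u X Y' + u Y Z' + u Z X' + c(X, Y, Z) + u r r ≤ u p p + u p' a + u a' b + u b' s + c(a, b, s) + d(p, r) + d(s, r)`.
Each lemma uses a few Lipschitz steps `u x z ≤ u x y + d(y, z)` and exchange steps
`u x y + u x z ≤ u x x + u y z`, and needs one linear inequality between distances.
-/

set_option autoImplicit false
set_option linter.unusedVariables false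
set_option linter.unusedSimpArgs false

namespace Pool.Agent.KServer

variable {V : Type} {D : V → V → ℝ} {anti : V → V} {Δ : ℝ} {u : V → V → ℝ}

namespace Loc

theorem c1 (h : Loc D anti Δ u) (p s a b r : V) (hE : D s b + D s a ≤ D p b + D p a) :
    T3 D anti Δ u r (u p p + u (anti p) a + u (anti a) b + u (anti b) s + (2 * Δ - D s a - D s b - D a b) + D p r + D s r) := by
  refine ⟨p, b, a, ?_⟩
  have s0 := h.ex p (anti b) r
  have s1 := h.lp r p r
  have s2 := h.lp (anti b) s r
  have d1 := h.metr.comm s p
  have d2 := h.metr.comm a p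
  have d3 := h.metr.comm b p
  have d4 := h.metr.comm r p
  have d5 := h.metr.comm a s
  have d6 := h.metr.comm b s
  have d7 := h.metr.comm r s
  have d8 := h.metr.comm b a
  have d9 := h.metr.comm r a
  have d10 := h.metr.comm r b
  have f1 := h.metr.self p
  have f2 := h.metr.self s
  have f3 := h.metr.self a
  have f4 := h.metr.self b
  have f5 := h.metr.self r
  have e1 := h.symm (anti a) b
  have e2 := h.symm p r
  have e3 := h.symm (anti p) a
  try simp only [h.hai, h.ha, h.ha1] at *
  linarith

theorem c2 (h : Loc D anti Δ u) (p s a b r : V) (hE : 2 * Δ ≤ D p r + D s r + D p s) :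
    T3 D anti Δ u r (u p p + u (anti p) a + u (anti a) b + u (anti b) s + (2 * Δ - D s a - D s b - D a b) + D p r + D s r) := by
  refine ⟨s, b, a, ?_⟩
  have s0 := h.lp a (anti p) r
  have s1 := h.lp a p (anti s)
  have s2 := h.lp r p r
  have s3 := h.ex p a r
  have d1 := h.metr.comm s p
  have d2 := h.metr.comm a p
  have d3 := h.metr.comm b p
  have d4 := h.metr.comm r p
  have d5 := h.metr.comm a s
  have d6 := h.metr.comm b s
  have d7 := h.metr.comm r s
  have d8 := h.metr.comm b a
  have d9 := h.metr.comm r a
  have d10 := h.metr.comm r b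
  have f1 := h.metr.self p
  have f2 := h.metr.self s
  have f3 := h.metr.self a
  have f4 := h.metr.self b
  have f5 := h.metr.self r
  have e1 := h.symm (anti a) b
  have e2 := h.symm a p
  have e3 := h.symm (anti b) s
  have e4 := h.symm p r
  have e5 := h.symm (anti p) a
  try simp only [h.hai, h.ha, h.ha1] at *
  linarith

theorem c3 (h : Loc D anti Δ u) (p s a b r : V) (hE : D p r + D p s ≤ D s r) :
    T3 D anti Δ u r (u p p + u (anti p) a + u (anti a) b + u (anti b) s + (2 * Δ - D s a - D s b - D a b) + D p r + D s r) := by
  refine ⟨s, b, a, ?_⟩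
  have s0 := h.lp p p r
  have s1 := h.lp a (anti p) (anti s)
  have s2 := h.lp r p r
  have d1 := h.metr.comm s p
  have d2 := h.metr.comm a p
  have d3 := h.metr.comm b p
  have d4 := h.metr.comm r p
  have d5 := h.metr.comm a s
  have d6 := h.metr.comm b s
  have d7 := h.metr.comm r s
  have d8 := h.metr.comm b a
  have d9 := h.metr.comm r a
  have d10 := h.metr.comm r b
  have f1 := h.metr.self p
  have f2 := h.metr.self s
  have f3 := h.metr.self a
  have f4 := h.metr.self b
  have f5 := h.metr.self r
  have e1 := h.symm (anti a) b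
  have e2 := h.symm (anti b) s
  have e3 := h.symm p r
  have e4 := h.symm (anti p) a
  try simp only [h.hai, h.ha, h.ha1] at *
  linarith

theorem c4 (h : Loc D anti Δ u) (p s a b r : V) (hE : D a b + D s b + D s a ≤ D p r + D b r + D p b) :
    T3 D anti Δ u r (u p p + u (anti p) a + u (anti a) b + u (anti b) s + (2 * Δ - D s a - D s b - D a b) + D p r + D s r) := by
  refine ⟨p, (anti p), a, ?_⟩
  have s0 := h.lp r (anti b) r
  have s1 := h.lp (anti a) b (anti p)
  have s2 := h.lp (anti b) s r
  have d1 := h.metr.comm s p
  have d2 := h.metr.comm a p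
  have d3 := h.metr.comm b p
  have d4 := h.metr.comm r p
  have d5 := h.metr.comm a s
  have d6 := h.metr.comm b s
  have d7 := h.metr.comm r s
  have d8 := h.metr.comm b a
  have d9 := h.metr.comm r a
  have d10 := h.metr.comm r b
  have f1 := h.metr.self p
  have f2 := h.metr.self s
  have f3 := h.metr.self a
  have f4 := h.metr.self b
  have f5 := h.metr.self r
  have e1 := h.symm (anti p) a
  have e2 := h.symm (anti a) (anti p)
  have e3 := h.symm (anti b) r
  try simp only [h.hai, h.ha, h.ha1] at *
  linarith

theorem c5 (h : Loc D anti Δ u) (p s a b r : V) (hE : 2 * D a b + D s b + D p b ≤ D p a + D s r + D a r) :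
    T3 D anti Δ u r (u p p + u (anti p) a + u (anti a) b + u (anti b) s + (2 * Δ - D s a - D s b - D a b) + D p r + D s r) := by
  refine ⟨p, (anti b), a, ?_⟩
  have s0 := h.ex p (anti a) b
  have s1 := h.lp r p r
  have s2 := h.lp (anti b) s (anti a)
  have s3 := h.lp p (anti a) r
  have d1 := h.metr.comm s p
  have d2 := h.metr.comm a p
  have d3 := h.metr.comm b p
  have d4 := h.metr.comm r p
  have d5 := h.metr.comm a s
  have d6 := h.metr.comm b s
  have d7 := h.metr.comm r s
  have d8 := h.metr.comm b a
  have d9 := h.metr.comm r a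
  have d10 := h.metr.comm r b
  have f1 := h.metr.self p
  have f2 := h.metr.self s
  have f3 := h.metr.self a
  have f4 := h.metr.self b
  have f5 := h.metr.self r
  have e1 := h.symm p r
  have e2 := h.symm (anti p) a
  try simp only [h.hai, h.ha, h.ha1] at *
  linarith

theorem c6 (h : Loc D anti Δ u) (p s a b r : V) (hE : D a b + D s b + D b r + D p b ≤ D p r + D s r + D a r) :
    T3 D anti Δ u r (u p p + u (anti p) a + u (anti a) b + u (anti b) s + (2 * Δ - D s a - D s b - D a b) + D p r + D s r) := by
  refine ⟨p, (anti p), s, ?_⟩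
  have s0 := h.lp r b r
  have s1 := h.lp (anti p) a (anti s)
  have s2 := h.lp s (anti b) (anti p)
  have s3 := h.lp b (anti a) r
  have d1 := h.metr.comm s p
  have d2 := h.metr.comm a p
  have d3 := h.metr.comm b p
  have d4 := h.metr.comm r p
  have d5 := h.metr.comm a s
  have d6 := h.metr.comm b s
  have d7 := h.metr.comm r s
  have d8 := h.metr.comm b a
  have d9 := h.metr.comm r a
  have d10 := h.metr.comm r b
  have f1 := h.metr.self p
  have f2 := h.metr.self s
  have f3 := h.metr.self a
  have f4 := h.metr.self b
  have f5 := h.metr.self r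
  have e1 := h.symm b r
  have e2 := h.symm (anti a) b
  have e3 := h.symm (anti b) s
  try simp only [h.hai, h.ha, h.ha1] at *
  linarith

theorem c7 (h : Loc D anti Δ u) (p s a b r : V) (hE : D s b + D s a + D p a + D p b ≤ 2 * D p s) :
    T3 D anti Δ u r (u p p + u (anti p) a + u (anti a) b + u (anti b) s + (2 * Δ - D s a - D s b - D a b) + D p r + D s r) := by
  refine ⟨p, (anti a), (anti b), ?_⟩
  have s0 := h.lp a (anti p) s
  have s1 := h.lp r p r
  have s2 := h.lp (anti b) s (anti p)
  have s3 := h.ex p a r
  have s4 := h.lp a s r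
  have d1 := h.metr.comm s p
  have d2 := h.metr.comm a p
  have d3 := h.metr.comm b p
  have d4 := h.metr.comm r p
  have d5 := h.metr.comm a s
  have d6 := h.metr.comm b s
  have d7 := h.metr.comm r s
  have d8 := h.metr.comm b a
  have d9 := h.metr.comm r a
  have d10 := h.metr.comm r b
  have f1 := h.metr.self p
  have f2 := h.metr.self s
  have f3 := h.metr.self a
  have f4 := h.metr.self b
  have f5 := h.metr.self r
  have e1 := h.symm p r
  have e2 := h.symm (anti p) a
  try simp only [h.hai, h.ha, h.ha1] at *
  linarith

theorem c8 (h : Loc D anti Δ u) (p s a b r : V) (hE : D s a + D p a + D p b ≤ D s r + D b r) :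
    T3 D anti Δ u r (u p p + u (anti p) a + u (anti a) b + u (anti b) s + (2 * Δ - D s a - D s b - D a b) + D p r + D s r) := by
  refine ⟨p, (anti a), (anti b), ?_⟩
  have s0 := h.lp r p r
  have s1 := h.ex p a (anti b)
  have s2 := h.ex (anti b) (anti p) a
  have s3 := h.lp p (anti b) r
  have s4 := h.lp (anti b) s (anti b)
  have d1 := h.metr.comm s p
  have d2 := h.metr.comm a p
  have d3 := h.metr.comm b p
  have d4 := h.metr.comm r p
  have d5 := h.metr.comm a s
  have d6 := h.metr.comm b s
  have d7 := h.metr.comm r s
  have d8 := h.metr.comm b a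
  have d9 := h.metr.comm r a
  have d10 := h.metr.comm r b
  have f1 := h.metr.self p
  have f2 := h.metr.self s
  have f3 := h.metr.self a
  have f4 := h.metr.self b
  have f5 := h.metr.self r
  have e1 := h.symm p r
  have e2 := h.symm (anti b) a
  try simp only [h.hai, h.ha, h.ha1] at *
  linarith

theorem c9 (h : Loc D anti Δ u) (p s a b r : V) (hE : 2 * D a b + D s b + D s a + D p b ≤ 2 * D p a + D p r + D a r) :
    T3 D anti Δ u r (u p p + u (anti p) a + u (anti a) b + u (anti b) s + (2 * Δ - D s a - D s b - D a b) + D p r + D s r) := by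
  refine ⟨p, (anti b), a, ?_⟩
  have s0 := h.lp r (anti a) r
  have s1 := h.lp (anti b) s r
  have s2 := h.lp (anti a) p (anti a)
  have s3 := h.ex (anti a) (anti b) r
  have s4 := h.ex p (anti a) b
  have d1 := h.metr.comm s p
  have d2 := h.metr.comm a p
  have d3 := h.metr.comm b p
  have d4 := h.metr.comm r p
  have d5 := h.metr.comm a s
  have d6 := h.metr.comm b s
  have d7 := h.metr.comm r s
  have d8 := h.metr.comm b a
  have d9 := h.metr.comm r a
  have d10 := h.metr.comm r b
  have f1 := h.metr.self p
  have f2 := h.metr.self s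
  have f3 := h.metr.self a
  have f4 := h.metr.self b
  have f5 := h.metr.self r
  have e1 := h.symm (anti a) r
  have e2 := h.symm (anti a) p
  have e3 := h.symm (anti a) (anti b)
  have e4 := h.symm (anti p) a
  try simp only [h.hai, h.ha, h.ha1] at *
  linarith

theorem c10 (h : Loc D anti Δ u) (p s a b r : V) (hE : D s b + D s a + D p b ≤ D p r + D a r) :
    T3 D anti Δ u r (u p p + u (anti p) a + u (anti a) b + u (anti b) s + (2 * Δ - D s a - D s b - D a b) + D p r + D s r) := by
  refine ⟨p, (anti p), a, ?_⟩
  have s0 := h.lp (anti a) (anti b) (anti p)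
  have s1 := h.lp (anti b) s r
  have s2 := h.lp r (anti a) r
  have s3 := h.lp (anti a) b (anti a)
  have s4 := h.ex (anti a) (anti b) r
  have d1 := h.metr.comm s p
  have d2 := h.metr.comm a p
  have d3 := h.metr.comm b p
  have d4 := h.metr.comm r p
  have d5 := h.metr.comm a s
  have d6 := h.metr.comm b s
  have d7 := h.metr.comm r s
  have d8 := h.metr.comm b a
  have d9 := h.metr.comm r a
  have d10 := h.metr.comm r b
  have f1 := h.metr.self p
  have f2 := h.metr.self s
  have f3 := h.metr.self a
  have f4 := h.metr.self b
  have f5 := h.metr.self r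
  have e1 := h.symm (anti p) a
  have e2 := h.symm (anti a) r
  have e3 := h.symm (anti a) (anti p)
  try simp only [h.hai, h.ha, h.ha1] at *
  linarith

theorem c11 (h : Loc D anti Δ u) (p s a b r : V) (hE : D a b + D p s + D p a ≤ D s r + D b r) (hE' : 2 * D a b + D s a + D p a ≤ D p b + D s r + D b r) :
    T3 D anti Δ u r (u p p + u (anti p) a + u (anti a) b + u (anti b) s + (2 * Δ - D s a - D s b - D a b) + D p r + D s r) := by
  rcases h.sp (anti p) a (anti a) b with hs | hs
  · refine ⟨p, (anti s), (anti a), ?_⟩
    have s0 := h.lp a b (anti s)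
    have s1 := h.lp r p r
    have s2 := h.lp p (anti b) r
    have s3 := h.ex p s (anti b)
    have d1 := h.metr.comm s p
    have d2 := h.metr.comm a p
    have d3 := h.metr.comm b p
    have d4 := h.metr.comm r p
    have d5 := h.metr.comm a s
    have d6 := h.metr.comm b s
    have d7 := h.metr.comm r s
    have d8 := h.metr.comm b a
    have d9 := h.metr.comm r a
    have d10 := h.metr.comm r b
    have f1 := h.metr.self p
    have f2 := h.metr.self s
    have f3 := h.metr.self a
    have f4 := h.metr.self b
    have f5 := h.metr.self r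
    have e1 := h.symm (anti s) a
    have e2 := h.symm p r
    have e3 := h.symm (anti b) s
    have e4 := h.symm (anti a) (anti p)
    try simp only [h.hai, h.ha, h.ha1] at *
    linarith
  · refine ⟨p, (anti a), b, ?_⟩
    have s0 := h.lp r p r
    have s1 := h.lp a (anti b) r
    have s2 := h.ex p a r
    have s3 := h.ex (anti b) a (anti a)
    have s4 := h.lp (anti b) s (anti b)
    have d1 := h.metr.comm s p
    have d2 := h.metr.comm a p
    have d3 := h.metr.comm b p
    have d4 := h.metr.comm r p
    have d5 := h.metr.comm a s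
    have d6 := h.metr.comm b s
    have d7 := h.metr.comm r s
    have d8 := h.metr.comm b a
    have d9 := h.metr.comm r a
    have d10 := h.metr.comm r b
    have f1 := h.metr.self p
    have f2 := h.metr.self s
    have f3 := h.metr.self a
    have f4 := h.metr.self b
    have f5 := h.metr.self r
    have e1 := h.symm (anti p) b
    have e2 := h.symm p r
    have e3 := h.symm (anti a) (anti b)
    have e4 := h.symm (anti b) a
    try simp only [h.hai, h.ha, h.ha1] at *
    linarith

theorem c12 (h : Loc D anti Δ u) (p s a b r : V) (hE : 2 * D s b + D s a + D p a + D p b + D b r ≤ 2 * Δ + D s r) (hE' : D a b + 2 * D s b + D p b ≤ D p s + D s r + D a r) :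
    T3 D anti Δ u r (u p p + u (anti p) a + u (anti a) b + u (anti b) s + (2 * Δ - D s a - D s b - D a b) + D p r + D s r) := by
  rcases h.sp (anti p) a (anti b) s with hs | hs
  · refine ⟨p, (anti a), (anti b), ?_⟩
    have s0 := h.ex p a r
    have s1 := h.lp r p r
    have s2 := h.lp a s b
    have s3 := h.lp a b r
    have d1 := h.metr.comm s p
    have d2 := h.metr.comm a p
    have d3 := h.metr.comm b p
    have d4 := h.metr.comm r p
    have d5 := h.metr.comm a s
    have d6 := h.metr.comm b s
    have d7 := h.metr.comm r s
    have d8 := h.metr.comm b a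
    have d9 := h.metr.comm r a
    have d10 := h.metr.comm r b
    have f1 := h.metr.self p
    have f2 := h.metr.self s
    have f3 := h.metr.self a
    have f4 := h.metr.self b
    have f5 := h.metr.self r
    have e1 := h.symm p r
    have e2 := h.symm (anti b) (anti p)
    try simp only [h.hai, h.ha, h.ha1] at *
    linarith
  · refine ⟨p, (anti b), s, ?_⟩
    have s0 := h.lp p (anti a) r
    have s1 := h.ex p (anti a) b
    have s2 := h.lp r p r
    have s3 := h.lp (anti b) a (anti s)
    have d1 := h.metr.comm s p
    have d2 := h.metr.comm a p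
    have d3 := h.metr.comm b p
    have d4 := h.metr.comm r p
    have d5 := h.metr.comm a s
    have d6 := h.metr.comm b s
    have d7 := h.metr.comm r s
    have d8 := h.metr.comm b a
    have d9 := h.metr.comm r a
    have d10 := h.metr.comm r b
    have f1 := h.metr.self p
    have f2 := h.metr.self s
    have f3 := h.metr.self a
    have f4 := h.metr.self b
    have f5 := h.metr.self r
    have e1 := h.symm p r
    have e2 := h.symm (anti b) a
    have e3 := h.symm (anti p) s
    try simp only [h.hai, h.ha, h.ha1] at *
    linarith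

end Loc

end Pool.Agent.KServer
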