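import Pool.Agent.Work.MP_fe875b_lc.Circ.Wfa

/-!
Three servers on the circle: the work function algorithm is 3-competitive on every metric space all of whose
finite subsets embed isometrically in a circle of some length.
-/

set_option autoImplicit false

namespace Pool.Agent.KServer.ThreeServersCircle

open Pool.Agent.KServer

theorem result (M : Type) [MetricSpace M]
    (hM : ∀ F : Finset M, ∃ L : ℝ, 0 < L ∧ ∃ f : M → AddCircle L,
      ∀ x ∈ F, ∀ y ∈ F, dist (f x) (f y) = dist x y)
    (c₀ : Fin 3 → M) :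
    (∃ C : List M → (Fin 3 → M), IsWFA dist c₀ C) ∧
    ∀ C : List M → (Fin 3 → M), IsWFA dist c₀ C →
      C [] = c₀ ∧
      (∀ (l : List M) (r : M), ∃ i : Fin 3, C (l ++ [r]) i = r) ∧
      ∀ (a : M) (σ : List M) (S : ℕ → Fin 3 → M),
        S 0 = c₀ →
        (∀ j : Fin σ.length, ∃ i : Fin 3, S (j.val + 1) i = σ.get j) →
        (∑ j ∈ Finset.range σ.length, ∑ i : Fin 3,
            dist (C (σ.take j) i) (C (σ.take (j + 1)) i))
          ≤ 3 * (∑ j ∈ Finset.range σ.length, ∑ i : Fin 3,
            dist (S j i) (S (j + 1) i)) + 4 * ∑ i : Fin 3, dist (c₀ i) a := by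
  have hMet : Metr (dist : M → M → ℝ) :=
    { self := fun x => dist_self _
      nonneg := fun x y => dist_nonneg
      tri := fun x y z => dist_triangle _ _ _
      comm := fun x y => dist_comm _ _ }
  refine ⟨exists_isWFA (by norm_num) hMet c₀, fun C hC => ⟨hC.1, fun l r => (hC.2 l r).1, fun a σ S h0 hS => ?_⟩⟩
  exact wfa_circ M hM c₀ C hC a σ S ⟨h0, hS⟩

end Pool.Agent.KServer.ThreeServersCircle
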